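import Mathlib
import Pool.Agent.Y580.RF.F6
import Pool.Agent.Helper133.Brouwer

/-!
# Isometric foldings between round spheres up to homotopy through isometric foldings

For all `m ≥ 1` and all `n` the isometric foldings of `S^m` into `S^n` are classified up to
homotopy through isometric foldings. This contains the full answer to Robertson's question and
sharpens `Pool.Agent.Results.MP_9d9d56_gt.RobertsonHomotopy` (no isometries are needed, the
homotopy runs through non-trivial foldings, all codimensions, all path components).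
-/

open scoped RealInnerProductSpace ENNReal
open Set Filter Topology

namespace Pool.Agent.Results.MP_9d9d56_gt.AllCodimensions

open Pool.Agent.Y580.RF
open Pool.Agent.Helper697 (sfold arc GeoV PGV geo_inner geo_norm geo_var arc_norm arc_inner
  exists_perp polar)

/-- Euclidean space of dimension `m + 1`. -/
abbrev E (m : ℕ) : Type := EuclideanSpace ℝ (Fin (m + 1))

/-- The round unit sphere `S^m`. -/
abbrev Sph (m : ℕ) : Type := Metric.sphere (0 : E m) 1

/-- On `[a, b]` the path `γ` runs with constant speed `c ≥ 0` along the great circle through the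
unit vector `p` with unit tangent direction `v` at time `a`. -/
def IsGeodesicOn {m : ℕ} (γ : ℝ → Sph m) (a b : ℝ) : Prop :=
  ∃ (p v : E m) (c : ℝ), ‖p‖ = 1 ∧ ‖v‖ = 1 ∧ ⟪p, v⟫ = 0 ∧ 0 ≤ c ∧
    ∀ t ∈ Icc a b, (γ t : E m) = Real.cos (c * (t - a)) • p + Real.sin (c * (t - a)) • v

/-- The path `γ` is piecewise geodesic on `[a, b]`: there is a finite subdivision
`a = t 0 < t 1 < ⋯ < t n = b` such that `γ` is geodesic on every `[t i, t (i + 1)]`. -/
def IsPiecewiseGeodesicOn {m : ℕ} (γ : ℝ → Sph m) (a b : ℝ) : Prop :=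
  ∃ (n : ℕ) (t : ℕ → ℝ), t 0 = a ∧ t n = b ∧ (∀ i < n, t i < t (i + 1)) ∧
    ∀ i < n, IsGeodesicOn γ (t i) (t (i + 1))

/-- The length of the path `γ` on `[a, b]` (its total variation). -/
noncomputable def pathLength {m : ℕ} (γ : ℝ → Sph m) (a b : ℝ) : ℝ≥0∞ :=
  eVariationOn γ (Icc a b)

/-- Isometric foldings of `S^m` into `S^n`: continuous maps sending every piecewise geodesic path
to a piecewise geodesic path of the same length. -/
def IsIsometricFolding {m n : ℕ} (f : Sph m → Sph n) : Prop :=
  Continuous f ∧ ∀ (γ : ℝ → Sph m) (a b : ℝ), a ≤ b → IsPiecewiseGeodesicOn γ a b →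
    IsPiecewiseGeodesicOn (f ∘ γ) a b ∧ pathLength (f ∘ γ) a b = pathLength γ a b

/-- `g` and `h` are homotopic through maps with the property `P`. -/
def HomotopicThrough {m n : ℕ} (P : (Sph m → Sph n) → Prop) (g h : Sph m → Sph n) : Prop :=
  ∃ H : Sph m × unitInterval → Sph n, Continuous H ∧ (∀ x, H (x, 0) = g x) ∧
    (∀ x, H (x, 1) = h x) ∧ ∀ t, P fun x => H (x, t)

/-- The standard basis vectors as points of the sphere. -/
noncomputable def stdPt (m : ℕ) (i : Fin (m + 1)) : Sph m :=
  ⟨EuclideanSpace.single i 1, by simp⟩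

/-- The determinant of the images of the standard basis vectors. -/
noncomputable def orient {m : ℕ} (f : Sph m → Sph m) : ℝ :=
  Matrix.det (Matrix.of fun i j => (f (stdPt m i) : E m) j)

variable {m n : ℕ}

lemma norm_sph (x : Sph m) : ‖(x : E m)‖ = 1 := mem_sphere_zero_iff_norm.mp x.2

/-- The positively homogeneous extension. -/
noncomputable def hext (f : Sph m → Sph n) (x : E m) : E n :=
  if h : x = 0 then 0 else ‖x‖ • (f ⟨‖x‖⁻¹ • x, by
    rw [mem_sphere_zero_iff_norm, norm_smul, norm_inv, norm_norm,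
      inv_mul_cancel₀ (norm_ne_zero_iff.mpr h)]⟩ : E n)

lemma hext_sph (f : Sph m → Sph n) (x : Sph m) : hext f x = f x := by
  have h1 := norm_sph x
  have h0 : (x : E m) ≠ 0 := by
    intro h
    rw [h, norm_zero] at h1
    exact zero_ne_one h1
  have h2 : ∀ h : ‖(x : E m)‖⁻¹ • (x : E m) ∈ Metric.sphere (0 : E m) 1,
      (⟨‖(x : E m)‖⁻¹ • (x : E m), h⟩ : Sph m) = x := by
    intro h
    apply Subtype.ext
    change ‖(x : E m)‖⁻¹ • (x : E m) = x
    rw [h1, inv_one, one_smul]
  rw [hext, dif_neg h0, h2, h1, one_smul]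

lemma hext_norm (f : Sph m → Sph n) (x : E m) : ‖hext f x‖ = ‖x‖ := by
  rw [hext]
  split_ifs with h
  · rw [h, norm_zero, norm_zero]
  · rw [norm_smul, norm_norm, norm_sph, mul_one]

lemma hext_inner (f : Sph m → Sph n)
    (hf : ∀ x y : Sph m, ⟪(x : E m), (y : E m)⟫ ≤ ⟪(f x : E n), (f y : E n)⟫) (x y : E m) :
    ⟪x, y⟫ ≤ ⟪hext f x, hext f y⟫ := by
  by_cases hx : x = 0
  · rw [hx, inner_zero_left, hext, dif_pos rfl, inner_zero_left]
  by_cases hy : y = 0
  · rw [hy, inner_zero_right, hext, hext, dif_pos rfl, inner_zero_right]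
  rw [hext, dif_neg hx, hext, dif_neg hy, real_inner_smul_left, real_inner_smul_right]
  have hx' : ‖x‖ ≠ 0 := norm_ne_zero_iff.mpr hx
  have hy' : ‖y‖ ≠ 0 := norm_ne_zero_iff.mpr hy
  have h1 := hf ⟨‖x‖⁻¹ • x, by
    rw [mem_sphere_zero_iff_norm, norm_smul, norm_inv, norm_norm, inv_mul_cancel₀ hx']⟩
    ⟨‖y‖⁻¹ • y, by
    rw [mem_sphere_zero_iff_norm, norm_smul, norm_inv, norm_norm, inv_mul_cancel₀ hy']⟩
  simp only [real_inner_smul_left, real_inner_smul_right] at h1
  have h2 : ⟪x, y⟫ = ‖x‖ * (‖y‖ * (‖x‖⁻¹ * (‖y‖⁻¹ * ⟪x, y⟫))) := by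
    field_simp
  rw [mul_left_comm] at h1
  rw [h2]
  gcongr

lemma pg_iff (γ : ℝ → Sph m) (a b : ℝ) :
    IsPiecewiseGeodesicOn γ a b ↔ PGV (fun t => (γ t : E m)) a b := Iff.rfl

lemma len_eq (γ : ℝ → Sph m) (a b : ℝ) :
    pathLength γ a b = eVariationOn (fun t => (γ t : E m)) (Icc a b) := rfl

/-- the orthonormal pair needed to know that `m + 1 ≥ 2` -/
lemma exists_pair (hm : 1 ≤ m) : Pair (E m) := by
  refine ⟨EuclideanSpace.single ⟨0, by omega⟩ 1, EuclideanSpace.single ⟨1, by omega⟩ 1,
    by simp, by simp, ?_⟩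
  rw [EuclideanSpace.inner_single_left]
  simp

lemma circle_mem {x u : E m} (hx : ‖x‖ = 1) (hu : ‖u‖ = 1) (hxu : ⟪x, u⟫ = 0) (t : ℝ) :
    Real.cos t • x + Real.sin t • u ∈ Metric.sphere (0 : E m) 1 := by
  rw [mem_sphere_zero_iff_norm]
  exact arc_norm hx hu hxu t

/-- the unit speed great circle -/
noncomputable def circ {x u : E m} (hx : ‖x‖ = 1) (hu : ‖u‖ = 1) (hxu : ⟪x, u⟫ = 0) (t : ℝ) :
    Sph m := ⟨Real.cos t • x + Real.sin t • u, circle_mem hx hu hxu t⟩

lemma circ_geo {x u : E m} (hx : ‖x‖ = 1) (hu : ‖u‖ = 1) (hxu : ⟪x, u⟫ = 0) (θ : ℝ) :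
    GeoV (fun t => (circ hx hu hxu t : E m)) 0 θ x u 1 := by
  refine ⟨hx, hu, hxu, zero_le_one, ?_⟩
  intro t _
  simp [circ]

lemma folding_inner (hm : 1 ≤ m) {f : Sph m → Sph n} (hf : IsIsometricFolding f)
    (x y : Sph m) : ⟪(x : E m), (y : E m)⟫ ≤ ⟪(f x : E n), (f y : E n)⟫ := by
  obtain ⟨p, v, hp, hv, hpv⟩ := exists_pair hm
  obtain ⟨u, hu, hxu, θ, hθ0, hθπ, hy⟩ := polar hp hv hpv (norm_sph x) (norm_sph y)
  rcases hθ0.eq_or_lt with h0 | h0
  · have hxy : y = x := by
      apply Subtype.ext
      rw [hy, ← h0]; simp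
    rw [hxy, real_inner_self_eq_norm_sq, real_inner_self_eq_norm_sq, norm_sph, norm_sph]
  · have hg := circ_geo (norm_sph x) hu hxu θ
    obtain ⟨h1, h2⟩ := hf.2 (circ (norm_sph x) hu hxu) 0 θ hθ0
      ((pg_iff _ _ _).mpr (PGV.of_geo hg hθ0))
    rw [len_eq, len_eq, geo_var hg hθ0] at h2
    rw [pg_iff] at h1
    rcases h1.angle_le with h3 | h3
    · have h4 : eVariationOn (fun t => ((f ∘ circ (norm_sph x) hu hxu) t : E n)) (Icc 0 θ) =
          ENNReal.ofReal (1 * (θ - 0)) := h2
      rw [h4] at h3
      have e0 : circ (norm_sph x) hu hxu 0 = x := by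
        apply Subtype.ext; simp [circ]
      have e1 : circ (norm_sph x) hu hxu θ = y := by
        apply Subtype.ext; rw [hy]; rfl
      simp only [Function.comp_apply, e0, e1] at h3
      rw [ENNReal.ofReal_le_ofReal_iff (by linarith)] at h3
      have h5 := InnerProductGeometry.cos_angle_mul_norm_mul_norm (f x : E n) (f y : E n)
      rw [norm_sph, norm_sph, one_mul, mul_one] at h5
      rw [← h5]
      have h6 : ⟪(x : E m), (y : E m)⟫ = Real.cos θ := by
        rw [hy]; exact arc_inner (norm_sph x) hxu θ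
      rw [h6]
      exact Real.cos_le_cos_of_nonneg_of_le_pi (InnerProductGeometry.angle_nonneg _ _) hθπ
        (by linarith)
    · linarith

lemma folding_expn (hm : 1 ≤ m) {f : Sph m → Sph n} (hf : IsIsometricFolding f) :
    Expn (hext f) :=
  ⟨hext_inner f (folding_inner hm hf), hext_norm f⟩

lemma folding_locStraight (hm : 1 ≤ m) {f : Sph m → Sph n} (hf : IsIsometricFolding f) :
    LocStraight (hext f) := by
  intro x u hx hu hxu
  have hF := folding_expn hm hf
  have hg := circ_geo hx hu hxu 1
  obtain ⟨h1, -⟩ := hf.2 (circ hx hu hxu) 0 1 zero_le_one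
    ((pg_iff _ _ _).mpr (PGV.of_geo hg zero_le_one))
  obtain ⟨k, t, ht0, htn, hlt, hgeo⟩ := h1
  have hn : 0 < k := by
    rcases Nat.eq_zero_or_pos k with h | h
    · subst h
      rw [ht0] at htn
      exact absurd htn zero_ne_one
    · exact h
  obtain ⟨p, v, c, hgc⟩ := hgeo 0 hn
  have hgc' : GeoV (fun t => ((f ∘ circ hx hu hxu) t : E n)) (t 0) (t (0 + 1)) p v c := hgc
  have ht1 := hlt 0 hn
  rw [zero_add, ht0] at ht1 hgc'
  set t1 := t 1 with ht1d
  -- equality of lengths on `[0, t1]` gives `c = 1`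
  have hg1 := circ_geo hx hu hxu t1
  obtain ⟨-, h2⟩ := hf.2 (circ hx hu hxu) 0 t1 ht1.le
    ((pg_iff _ _ _).mpr (PGV.of_geo hg1 ht1.le))
  rw [len_eq, len_eq, geo_var hg1 ht1.le, geo_var hgc' ht1.le] at h2
  have hc : c = 1 := by
    have h3 : c * (t1 - 0) = 1 * (t1 - 0) := by
      rw [ENNReal.ofReal_eq_ofReal_iff] at h2
      · exact h2
      · exact mul_nonneg hgc'.2.2.2.1 (by linarith)
      · linarith
    have h4 : t1 - 0 ≠ 0 := by linarith
    exact mul_right_cancel₀ h4 h3
  set δ := min t1 1 with hδ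
  have hδ0 : 0 < δ := lt_min ht1 one_pos
  have hδ1 : δ ≤ t1 := min_le_left _ _
  have hδ2 : δ ≤ 1 := min_le_right _ _
  have hin := geo_inner hgc' (s := 0) (t := δ) ⟨le_rfl, ht1.le⟩ ⟨hδ0.le, hδ1⟩
  rw [hc, one_mul, sub_zero] at hin
  have hcos : 0 < Real.cos δ := Real.cos_pos_of_mem_Ioo
    ⟨by linarith [Real.pi_gt_three], by linarith [Real.pi_gt_three]⟩
  refine ⟨Real.tan δ, Real.tan_pos_of_pos_of_lt_pi_div_two hδ0 (by linarith [Real.pi_gt_three]),
    ?_⟩
  have e1 : x + Real.tan δ • u = (Real.cos δ)⁻¹ • (circ hx hu hxu δ : E m) := by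
    rw [circ, smul_add, smul_smul, smul_smul, inv_mul_cancel₀ hcos.ne', one_smul,
      Real.tan_eq_sin_div_cos, div_eq_inv_mul]
  have e2 : x = (circ hx hu hxu 0 : E m) := by simp [circ]
  rw [e1, hF.smul _ (by positivity), real_inner_smul_right, hext_sph]
  have e3 : hext f x = f (circ hx hu hxu 0) := by
    conv_lhs => rw [e2]
    rw [hext_sph]
  rw [e3]
  have e4 : ⟪(f (circ hx hu hxu 0) : E n), (f (circ hx hu hxu δ) : E n)⟫ = Real.cos δ := hin
  rw [e4, inv_mul_cancel₀ hcos.ne']

lemma folding_cover (hm : 1 ≤ m) {f : Sph m → Sph n} (hf : IsIsometricFolding f) :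
    FinCover (hext f) univ :=
  structure_thm (folding_expn hm hf) (folding_locStraight hm hf)

/-- restriction of a norm preserving map to the sphere -/
def rs (F : E m → E n) (hF : ∀ x, ‖F x‖ = ‖x‖) (x : Sph m) : Sph n :=
  ⟨F x, by rw [mem_sphere_zero_iff_norm, hF, norm_sph]⟩

lemma folding_rs (hn : 1 ≤ n) {F : E m → E n} (hF : Expn F) (hcov : FinCover F univ) :
    IsIsometricFolding (rs F hF.2) := by
  refine ⟨?_, ?_⟩
  · have := hF.continuous
    unfold rs
    fun_prop
  · intro γ a b _ hγ
    rw [pg_iff] at hγ ⊢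
    rw [len_eq, len_eq]
    exact good_PG (exists_pair hn) hF hcov hγ

/-- a map of spheres is an isometry if and only if it preserves inner products -/
lemma isometry_iff (f : Sph m → Sph n) :
    Isometry f ↔ ∀ x y : Sph m, ⟪(f x : E n), (f y : E n)⟫ = ⟪(x : E m), (y : E m)⟫ := by
  have key : ∀ x y : Sph m, dist (f x) (f y) = dist x y ↔
      ⟪(f x : E n), (f y : E n)⟫ = ⟪(x : E m), (y : E m)⟫ := by
    intro x y
    rw [Subtype.dist_eq, Subtype.dist_eq, dist_eq_norm, dist_eq_norm,
      ← sq_eq_sq₀ (norm_nonneg _) (norm_nonneg _), @norm_sub_sq_real, @norm_sub_sq_real,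
      norm_sph, norm_sph, norm_sph, norm_sph]
    constructor
    · intro h; linarith
    · intro h; rw [h]
  constructor
  · intro h x y
    exact (key x y).mp (h.dist_eq x y)
  · intro h
    exact Isometry.of_dist_eq fun x y => (key x y).mpr (h x y)

lemma hext_iso {f : Sph m → Sph n} (hf : Isometry f) (x y : E m) :
    ⟪hext f x, hext f y⟫ = ⟪x, y⟫ := by
  rw [isometry_iff] at hf
  by_cases hx : x = 0
  · rw [hx, inner_zero_left, hext, dif_pos rfl, inner_zero_left]
  by_cases hy : y = 0
  · rw [hy, inner_zero_right, hext, hext, dif_pos rfl, inner_zero_right]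
  rw [hext, dif_neg hx, hext, dif_neg hy, real_inner_smul_left, real_inner_smul_right, hf]
  have hx' : ‖x‖ ≠ 0 := norm_ne_zero_iff.mpr hx
  have hy' : ‖y‖ ≠ 0 := norm_ne_zero_iff.mpr hy
  simp only [real_inner_smul_left, real_inner_smul_right]
  field_simp

lemma rs_isometry {F : E m → E n} (hF : Expn F) : Isometry (rs F hF.2) ↔ ¬ QN F := by
  rw [isometry_iff]
  constructor
  · rintro h ⟨x, y, hxy⟩
    apply hxy
    by_cases hx : x = 0
    · rw [hx, hF.zero, inner_zero_left, inner_zero_left]
    by_cases hy : y = 0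
    · rw [hy, hF.zero, inner_zero_right, inner_zero_right]
    have hx' : ‖x‖ ≠ 0 := norm_ne_zero_iff.mpr hx
    have hy' : ‖y‖ ≠ 0 := norm_ne_zero_iff.mpr hy
    have h1 := h ⟨‖x‖⁻¹ • x, by
      rw [mem_sphere_zero_iff_norm, norm_smul, norm_inv, norm_norm, inv_mul_cancel₀ hx']⟩
      ⟨‖y‖⁻¹ • y, by
      rw [mem_sphere_zero_iff_norm, norm_smul, norm_inv, norm_norm, inv_mul_cancel₀ hy']⟩
    simp only [rs] at h1
    rw [hF.smul _ (by positivity), hF.smul _ (by positivity)] at h1
    simp only [real_inner_smul_left, real_inner_smul_right] at h1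
    field_simp at h1
    exact h1
  · intro h x y
    by_contra hne
    exact h ⟨x, y, hne⟩

lemma hext_qn {f : Sph m → Sph n} (hf : ¬ Isometry f) : QN (hext f) := by
  by_contra h
  apply hf
  rw [isometry_iff]
  intro x y
  by_contra hne
  exact h ⟨x, y, by rw [hext_sph, hext_sph]; exact hne⟩

/-- Transfer of homotopies from homogeneous foldings to the spheres. -/
lemma of_hom {Q : (E m → E n) → Prop} {P : (Sph m → Sph n) → Prop} {f g : Sph m → Sph n}
    {F G : E m → E n} (hQP : ∀ (K : E m → E n) (hK : Expn K), FinCover K univ → Q K →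
      P (rs K hK.2)) (h : Hom Q F G) (hf : ∀ x : Sph m, F x = f x)
    (hg : ∀ x : Sph m, G x = g x) : HomotopicThrough P f g := by
  obtain ⟨K, h0, h1, h2, h3⟩ := h
  have hE : ∀ t : unitInterval, Expn (K t) := fun t => (h2 t t.2).1
  refine ⟨fun q => rs (K q.2) (hE q.2).2 q.1, ?_, ?_, ?_, ?_⟩
  · rw [continuous_induced_rng]
    change Continuous fun q : Sph m × unitInterval => K (q.2 : ℝ) (q.1 : E m)
    rw [continuous_iff_continuousAt]
    rintro ⟨x₁, t₁⟩
    unfold ContinuousAt
    rw [tendsto_iff_dist_tendsto_zero]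
    have h4 : Tendsto (fun q : Sph m × unitInterval => dist (q.1 : E m) (x₁ : E m) +
        dist (K (q.2 : ℝ) (x₁ : E m)) (K (t₁ : ℝ) (x₁ : E m))) (𝓝 (x₁, t₁)) (𝓝 (0 + 0)) := by
      apply Tendsto.add
      · have : Continuous fun q : Sph m × unitInterval => dist (q.1 : E m) (x₁ : E m) := by
          fun_prop
        have h5 := this.tendsto (x₁, t₁)
        simpa using h5
      · have h5 : Continuous fun t : unitInterval => K (t : ℝ) (x₁ : E m) :=
          (h3 (x₁ : E m)).comp_continuous (f := fun t : unitInterval => (t : ℝ))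
            (by fun_prop) (fun t => t.2)
        have h6 : Continuous fun q : Sph m × unitInterval =>
            dist (K (q.2 : ℝ) (x₁ : E m)) (K (t₁ : ℝ) (x₁ : E m)) :=
          (h5.comp continuous_snd).dist continuous_const
        have h7 := h6.tendsto (x₁, t₁)
        simpa using h7
    rw [add_zero] at h4
    refine squeeze_zero (fun _ => dist_nonneg) ?_ h4
    rintro ⟨x, t⟩
    refine (dist_triangle _ (K (t : ℝ) (x₁ : E m)) _).trans ?_
    apply add_le_add _ le_rfl
    rw [dist_eq_norm, dist_eq_norm]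
    exact (hE t).lip _ _
  · intro x
    apply Subtype.ext
    change K ((0 : unitInterval) : ℝ) x = f x
    rw [Set.Icc.coe_zero, h0, hf]
  · intro x
    apply Subtype.ext
    change K ((1 : unitInterval) : ℝ) x = g x
    rw [Set.Icc.coe_one, h1, hg]
  · intro t
    exact hQP (K t) (hE t) (h2 t t.2).2.1 (h2 t t.2).2.2

/-! ### Dimensions -/

lemma exists_incl (h : m ≤ n) : Nonempty (E m →ₗᵢ[ℝ] E n) := by
  let b := EuclideanSpace.basisFun (Fin (m + 1)) ℝ
  let c := EuclideanSpace.basisFun (Fin (n + 1)) ℝ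
  let v : Fin (m + 1) → E n := fun i => c (Fin.castLE (by omega) i)
  have hv : Orthonormal ℝ v :=
    c.orthonormal.comp _ (Fin.castLE_injective _)
  let L : E m →ₗ[ℝ] E n := b.toBasis.constr ℝ v
  have hvb : Orthonormal ℝ b.toBasis := by simpa using b.orthonormal
  have hLc : Orthonormal ℝ (L ∘ b.toBasis) := by
    have : (L ∘ b.toBasis) = v := by
      funext i
      exact b.toBasis.constr_basis ℝ v i
    rw [this]
    exact hv
  exact ⟨L.isometryOfOrthonormal hvb hLc⟩

lemma no_incl (h : n < m) (T : E m →ₗᵢ[ℝ] E n) : False := by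
  have h1 := LinearMap.finrank_le_finrank_of_injective (f := T.toLinearMap) T.injective
  rw [finrank_euclideanSpace_fin, finrank_euclideanSpace_fin] at h1
  omega

lemma exists_perp_range (h : m < n) (A : E m →ₗᵢ[ℝ] E n) :
    ∃ ν : E n, ‖ν‖ = 1 ∧ ∀ x, ⟪A x, ν⟫ = 0 := by
  set R := LinearMap.range A.toLinearMap with hR
  have h1 : Module.finrank ℝ R ≤ m + 1 := by
    have := LinearMap.finrank_range_le A.toLinearMap
    rwa [finrank_euclideanSpace_fin] at this
  have h2 := R.finrank_add_finrank_orthogonal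
  rw [finrank_euclideanSpace_fin] at h2
  have h3 : 0 < Module.finrank ℝ Rᗮ := by omega
  haveI := Module.nontrivial_of_finrank_pos h3
  obtain ⟨⟨w, hw⟩, hw0⟩ := exists_ne (0 : Rᗮ)
  have hw0' : w ≠ 0 := fun h => hw0 (Subtype.ext h)
  have hwn : ‖w‖ ≠ 0 := norm_ne_zero_iff.mpr hw0'
  refine ⟨‖w‖⁻¹ • w, ?_, ?_⟩
  · rw [norm_smul, norm_inv, norm_norm, inv_mul_cancel₀ hwn]
  · intro x
    rw [real_inner_smul_right, (Submodule.mem_orthogonal R w).mp hw (A x) ⟨x, rfl⟩, mul_zero]

/-! ### Surjective foldings are isometries -/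

lemma return_lemma {X : Type*} [MetricSpace X] [CompactSpace X] (g : X → X)
    (hg : ∀ x y, dist x y ≤ dist (g x) (g y)) (x y : X) {ε : ℝ} (hε : 0 < ε) :
    ∃ j, 1 ≤ j ∧ dist x (g^[j] x) < ε ∧ dist y (g^[j] y) < ε := by
  have hit : ∀ k, ∀ x y, dist x y ≤ dist (g^[k] x) (g^[k] y) := by
    intro k
    induction k with
    | zero => intro x y; simp
    | succ k ih =>
      intro x y
      rw [Function.iterate_succ_apply', Function.iterate_succ_apply']
      exact (ih x y).trans (hg _ _)
  obtain ⟨a, φ, hφ, hlim⟩ := CompactSpace.tendsto_subseq (fun n => (g^[n] x, g^[n] y))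
  have hc := hlim.cauchySeq
  rw [Metric.cauchySeq_iff] at hc
  obtain ⟨N, hN⟩ := hc ε hε
  have h1 := hN N le_rfl (N + 1) (Nat.le_succ N)
  have h2 : φ N < φ (N + 1) := hφ (Nat.lt_succ_self N)
  obtain ⟨j, hj⟩ := Nat.exists_eq_add_of_lt h2
  simp only [Function.comp_apply] at h1
  rw [Prod.dist_eq, max_lt_iff] at h1
  refine ⟨j + 1, by omega, ?_, ?_⟩
  · refine lt_of_le_of_lt (hit (φ N) _ _) ?_
    rw [← Function.iterate_add_apply, ← add_assoc, ← hj]
    exact h1.1
  · refine lt_of_le_of_lt (hit (φ N) _ _) ?_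
    rw [← Function.iterate_add_apply, ← add_assoc, ← hj]
    exact h1.2

lemma isometry_of_surj {X : Type*} [MetricSpace X] [CompactSpace X] (f : X → X)
    (hs : Function.Surjective f) (hf : ∀ x y, dist (f x) (f y) ≤ dist x y) : Isometry f := by
  set g := Function.surjInv hs with hgd
  have hfg : ∀ x, f (g x) = x := Function.surjInv_eq hs
  have hg : ∀ x y, dist x y ≤ dist (g x) (g y) := by
    intro x y
    have := hf (g x) (g y)
    rwa [hfg, hfg] at this
  have hit : ∀ k, ∀ x y, dist x y ≤ dist (g^[k] x) (g^[k] y) := by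
    intro k
    induction k with
    | zero => intro x y; simp
    | succ k ih =>
      intro x y
      rw [Function.iterate_succ_apply', Function.iterate_succ_apply']
      exact (ih x y).trans (hg _ _)
  refine Isometry.of_dist_eq fun x y => le_antisymm (hf x y) ?_
  refine le_of_forall_pos_le_add fun ε hε => ?_
  obtain ⟨j, hj, h1, h2⟩ := return_lemma g hg x y (half_pos hε)
  obtain ⟨k, rfl⟩ : ∃ k, j = k + 1 := ⟨j - 1, by omega⟩
  have e1 : ∀ z, f (g^[k + 1] z) = g^[k] z := by
    intro z
    rw [Function.iterate_succ_apply', hfg]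
  have h3 := hf x (g^[k + 1] x)
  have h4 := hf y (g^[k + 1] y)
  rw [e1] at h3 h4
  have h5 := hit k x y
  have h6 := dist_triangle4 (g^[k] x) (f x) (f y) (g^[k] y)
  rw [dist_comm (g^[k] x) (f x)] at h6
  linarith

lemma folding_dist (hm : 1 ≤ m) {f : Sph m → Sph n} (hf : IsIsometricFolding f) (x y : Sph m) :
    dist (f x) (f y) ≤ dist x y := by
  have h := (folding_expn hm hf).lip x y
  rw [hext_sph, hext_sph] at h
  rw [Subtype.dist_eq, Subtype.dist_eq, dist_eq_norm, dist_eq_norm]
  exact h

/-- an isometry of spheres is linear -/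
lemma iso_lin (hm : 1 ≤ m) {f : Sph m → Sph n} (hf : Isometry f) :
    ∃ T : E m →ₗᵢ[ℝ] E n, (∀ x, hext f x = T x) ∧ ∀ x : Sph m, (f x : E n) = T x := by
  have hE : Expn (hext f) := ⟨fun x y => (hext_iso hf x y).ge, hext_norm f⟩
  obtain ⟨T, hT⟩ := triv_lin (exists_pair hm) hE (fun ⟨x, y, h⟩ => h (hext_iso hf x y))
  exact ⟨T, hT, fun x => by rw [← hT, hext_sph]⟩

lemma isometry_surj (hm : 1 ≤ m) {f : Sph m → Sph m} (hf : Isometry f) :
    Function.Surjective f := by
  obtain ⟨T, -, hT⟩ := iso_lin hm hf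
  intro y
  have h1 : ‖(T.toLinearIsometryEquiv rfl).symm (y : E m)‖ = 1 := by
    rw [LinearIsometryEquiv.norm_map, norm_sph]
  refine ⟨⟨(T.toLinearIsometryEquiv rfl).symm (y : E m), by
    rw [mem_sphere_zero_iff_norm, h1]⟩, ?_⟩
  apply Subtype.ext
  rw [hT]
  exact (T.toLinearIsometryEquiv rfl).apply_symm_apply (y : E m)

lemma folding_isometry_iff (hm : 1 ≤ m) {f : Sph m → Sph m} (hf : IsIsometricFolding f) :
    Isometry f ↔ Function.Surjective f :=
  ⟨isometry_surj hm, fun h => isometry_of_surj f h (folding_dist hm hf)⟩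

lemma isometry_folding (hm : 1 ≤ m) (hn : 1 ≤ n) {f : Sph m → Sph n} (hf : Isometry f) :
    IsIsometricFolding f := by
  obtain ⟨T, -, hT⟩ := iso_lin hm hf
  have h := folding_rs hn (lin_expn T) (lin_cover T)
  have e : rs (T : E m → E n) (lin_expn T).2 = f := by
    funext x
    apply Subtype.ext
    rw [hT]
    rfl
  rwa [e] at h

/-! ### Homotopies of homotopies -/

lemma HomotopicThrough.mono {P P' : (Sph m → Sph n) → Prop} (hP : ∀ f, P f → P' f)
    {f g : Sph m → Sph n} (h : HomotopicThrough P f g) : HomotopicThrough P' f g := by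
  obtain ⟨H, h1, h2, h3, h4⟩ := h
  exact ⟨H, h1, h2, h3, fun t => hP _ (h4 t)⟩

lemma HomotopicThrough.symm {P : (Sph m → Sph n) → Prop} {f g : Sph m → Sph n}
    (h : HomotopicThrough P f g) : HomotopicThrough P g f := by
  obtain ⟨H, h1, h2, h3, h4⟩ := h
  refine ⟨fun q => H (q.1, unitInterval.symm q.2), by fun_prop, fun x => ?_, fun x => ?_,
    fun t => h4 (unitInterval.symm t)⟩
  · simp [h3]
  · simp [h2]

/-- A homotopy through foldings which starts with an isometry ends with a surjective map. -/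
lemma homotopy_surj (hm : 1 ≤ m) {f g : Sph m → Sph m}
    (h : HomotopicThrough IsIsometricFolding f g) (hf : Isometry f) :
    Function.Surjective g := by
  obtain ⟨H, hH, h0, h1, hP⟩ := h
  by_contra hns
  obtain ⟨p, hp⟩ : ∃ p, ∀ x, g x ≠ p := by
    by_contra hcon
    push Not at hcon
    exact hns hcon
  obtain ⟨T, hT, -⟩ := iso_lin hm hf
  set S := T.toLinearIsometryEquiv rfl with hS
  have hSx : ∀ x, S x = T x := fun x => rfl
  set Ψ : E m × unitInterval → E m := fun q => hext (fun y => H (y, q.2)) q.1 with hΨ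
  have hΨE : ∀ t : unitInterval, Expn (hext (fun y => H (y, t))) := fun t =>
    folding_expn hm (hP t)
  have hΨc : Continuous Ψ := by
    rw [continuous_iff_continuousAt]
    rintro ⟨x₁, t₁⟩
    unfold ContinuousAt
    rw [tendsto_iff_dist_tendsto_zero]
    have hpt : Continuous fun t : unitInterval => Ψ (x₁, t) := by
      simp only [hΨ]
      by_cases hx : x₁ = 0
      · have e : (fun t : unitInterval => hext (fun y => H (y, t)) x₁) = fun _ => 0 := by
          funext t
          rw [hext, dif_pos hx]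
        rw [e]
        exact continuous_const
      · have e : (fun t : unitInterval => hext (fun y => H (y, t)) x₁) = fun t =>
            ‖x₁‖ • ((H (⟨‖x₁‖⁻¹ • x₁, by
              rw [mem_sphere_zero_iff_norm, norm_smul, norm_inv, norm_norm,
                inv_mul_cancel₀ (norm_ne_zero_iff.mpr hx)]⟩, t) : Sph m) : E m) := by
          funext t
          rw [hext, dif_neg hx]
        rw [e]
        fun_prop
    have h4 : Tendsto (fun q : E m × unitInterval => dist q.1 x₁ +
        dist (Ψ (x₁, q.2)) (Ψ (x₁, t₁))) (𝓝 (x₁, t₁)) (𝓝 (0 + 0)) := by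
      apply Tendsto.add
      · have : Continuous fun q : E m × unitInterval => dist q.1 x₁ := by fun_prop
        have h5 := this.tendsto (x₁, t₁)
        simpa using h5
      · have h6 : Continuous fun q : E m × unitInterval =>
            dist (Ψ (x₁, q.2)) (Ψ (x₁, t₁)) :=
          (hpt.comp continuous_snd).dist continuous_const
        have h7 := h6.tendsto (x₁, t₁)
        simpa using h7
    rw [add_zero] at h4
    refine squeeze_zero (fun _ => dist_nonneg) ?_ h4
    rintro ⟨x, t⟩
    refine (dist_triangle _ (Ψ (x₁, t)) _).trans ?_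
    apply add_le_add _ le_rfl
    rw [dist_eq_norm, dist_eq_norm]
    exact (hΨE t).lip _ _
  set c : ℝ → unitInterval := fun s => Set.projIcc 0 1 zero_le_one s with hc
  have hcc : Continuous c := continuous_projIcc
  set Φ : E m → E m := fun x => S.symm (Ψ (x, c (2 - ‖x‖))) -
    (max 0 (1 - ‖x‖)) • S.symm (p : E m) with hΦ
  have hΦc : Continuous Φ := by
    have h2 := S.symm.continuous
    simp only [hΦ]
    fun_prop
  obtain ⟨x, hx⟩ := Pool.Agent.Helper133.Brouwer.exists_zero (m + 1) Φ hΦc 2 (by norm_num) (by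
    intro x hx
    have e1 : c (2 - ‖x‖) = 0 := by
      simp only [hc]
      exact Set.projIcc_of_le_left _ (by linarith)
    have e2 : max 0 (1 - ‖x‖) = 0 := max_eq_left (by linarith)
    simp only [hΦ, e1, e2, zero_smul, sub_zero, hΨ]
    have e3 : (fun y => H (y, 0)) = f := funext h0
    rw [e3, hT, ← hSx, LinearIsometryEquiv.symm_apply_apply])
  have hx' : S.symm (Ψ (x, c (2 - ‖x‖))) = (max 0 (1 - ‖x‖)) • S.symm (p : E m) := by
    simp only [hΦ] at hx
    exact sub_eq_zero.mp hx
  have hx2 : Ψ (x, c (2 - ‖x‖)) = (max 0 (1 - ‖x‖)) • (p : E m) := by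
    have := congrArg S hx'
    rwa [S.apply_symm_apply, map_smul, S.apply_symm_apply] at this
  have hnorm : ‖x‖ = max 0 (1 - ‖x‖) := by
    have := congrArg norm hx2
    rw [norm_smul, norm_sph, mul_one, Real.norm_eq_abs, abs_of_nonneg (le_max_left _ _),
      (hΨE _).2] at this
    exact this
  rcases le_total 1 ‖x‖ with h | h
  · rw [max_eq_left (by linarith)] at hnorm
    linarith
  · rw [max_eq_right (by linarith)] at hnorm
    have hxh : ‖x‖ = 1 / 2 := by linarith
    have hx0 : x ≠ 0 := by
      intro h0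
      rw [h0, norm_zero] at hxh
      norm_num at hxh
    have e1 : c (2 - ‖x‖) = 1 := by
      simp only [hc]
      exact Set.projIcc_of_right_le _ (by linarith)
    rw [e1, max_eq_right (by linarith)] at hx2
    simp only [hΨ] at hx2
    have e3 : (fun y => H (y, 1)) = g := funext h1
    obtain ⟨z, hz⟩ : ∃ z : Sph m, hext g x = ‖x‖ • (g z : E m) :=
      ⟨_, by rw [hext, dif_neg hx0]⟩
    rw [e3, hz, hxh] at hx2
    have e4 : (1 : ℝ) - 1 / 2 = 1 / 2 := by norm_num
    rw [e4] at hx2
    have h5 := smul_right_injective (E m) (by norm_num : (1 / 2 : ℝ) ≠ 0) hx2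
    exact hp z (Subtype.ext h5)

/-! ### Orientation -/

lemma orient_sq {f : Sph m → Sph m} (hf : Isometry f) : orient f = 1 ∨ orient f = -1 := by
  rw [isometry_iff] at hf
  set M : Matrix (Fin (m + 1)) (Fin (m + 1)) ℝ :=
    Matrix.of fun i j => (f (stdPt m i) : E m) j with hM
  have h1 : M * M.transpose = 1 := by
    ext i k
    rw [Matrix.mul_apply]
    have h2 := hf (stdPt m i) (stdPt m k)
    have h3 : ⟪(f (stdPt m i) : E m), (f (stdPt m k) : E m)⟫ =
        ∑ j, M i j * M.transpose j k := by
      rw [PiLp.inner_apply]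
      refine Finset.sum_congr rfl fun j _ => ?_
      simp only [hM, Matrix.transpose_apply, Matrix.of_apply]
      simp [mul_comm]
    rw [← h3, h2]
    simp only [stdPt]
    rw [EuclideanSpace.inner_single_left]
    simp [Matrix.one_apply]
  have h2 : M.det * M.det = 1 := by
    have := congrArg Matrix.det h1
    rwa [Matrix.det_mul, Matrix.det_transpose, Matrix.det_one] at this
  exact mul_self_eq_one_iff.mp h2

lemma homotopy_iso (hm : 1 ≤ m) {f g : Sph m → Sph m}
    (h : HomotopicThrough IsIsometricFolding f g) (hf : Isometry f) :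
    Isometry g ∧ orient f = orient g := by
  obtain ⟨H, hH, h0, h1, hP⟩ := h
  have hall : ∀ t, Isometry fun x => H (x, t) := by
    intro t
    rw [folding_isometry_iff hm (hP t)]
    refine homotopy_surj hm (f := f) ?_ hf
    refine ⟨fun q => H (q.1, q.2 * t), by fun_prop, fun x => ?_, fun x => ?_,
      fun s => hP (s * t)⟩
    · simp [h0]
    · simp
  have e0 : (fun x => H (x, 0)) = f := funext h0
  have e1 : (fun x => H (x, 1)) = g := funext h1
  refine ⟨by rw [← e1]; exact hall 1, ?_⟩
  have hc : Continuous fun t : unitInterval => orient fun x => H (x, t) := by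
    unfold orient
    apply Continuous.matrix_det
    apply continuous_matrix
    intro i j
    simp only [Matrix.of_apply]
    have : Continuous fun t : unitInterval => ((H (stdPt m i, t) : Sph m) : E m) := by fun_prop
    exact (EuclideanSpace.proj (𝕜 := ℝ) j).continuous.comp this
  have hdisc : IsDiscrete ({1, -1} : Set ℝ) :=
    isDiscrete_iff_discreteTopology.mpr (Set.toFinite ({1, -1} : Set ℝ)).instDiscreteTopology
  obtain ⟨y, -, hy⟩ := (isPreconnected_univ (α := unitInterval)).eqOn_const_of_mapsTo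
    (T := ({1, -1} : Set ℝ)) hdisc hc.continuousOn
    (fun t _ => by
      rcases orient_sq (hall t) with h | h
      · exact Or.inl h
      · exact Or.inr h) ⟨1, Or.inl rfl⟩
  have k0 : orient f = y := by
    have := hy (mem_univ (0 : unitInterval))
    simpa [h0, e0] using this
  have k1 : orient g = y := by
    have := hy (mem_univ (1 : unitInterval))
    simpa [h1, e1] using this
  rw [k0, k1]

lemma orient_id : orient (id : Sph m → Sph m) = 1 := by
  unfold orient
  have : (Matrix.of fun i j => ((id (stdPt m i) : Sph m) : E m) j) =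
      (1 : Matrix (Fin (m + 1)) (Fin (m + 1)) ℝ) := by
    ext i j
    simp [stdPt, Matrix.one_apply, eq_comm]
  rw [this, Matrix.det_one]

/-- The reflection of the sphere in the hyperplane orthogonal to the first basis vector. -/
noncomputable def refl0 (m : ℕ) : Sph m → Sph m :=
  rs (rf (stdPt m 0 : E m)) (rf_norm (norm_sph (stdPt m 0)))

lemma orient_refl0 : orient (refl0 m) = -1 := by
  unfold orient
  have : (Matrix.of fun i j => ((refl0 m (stdPt m i) : Sph m) : E m) j) =
      Matrix.diagonal (fun i : Fin (m + 1) => if i = 0 then (-1 : ℝ) else 1) := by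
    ext i j
    simp only [Matrix.of_apply, refl0, rs, rf, stdPt, Matrix.diagonal_apply]
    rw [EuclideanSpace.inner_single_left]
    by_cases hi : i = 0
    · subst hi
      by_cases hj : j = 0
      · subst hj; simp; norm_num
      · have hj' : ¬ (0 : Fin (m + 1)) = j := fun h => hj h.symm
        simp [hj, hj']
    · by_cases hj : j = i
      · subst hj; simp [hi]
      · have hj' : ¬ i = j := fun h => hj h.symm
        simp [hi, hj', hj]
  rw [this, Matrix.det_diagonal, Fin.prod_univ_succ]
  simp

lemma refl0_isometry : Isometry (refl0 m) := by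
  have h : ¬ QN (rf (stdPt m 0 : E m)) :=
    fun ⟨x, y, h⟩ => h (rf_inner (norm_sph (stdPt m 0)) x y)
  exact (rs_isometry (rf_expn (norm_sph (stdPt m 0)))).mpr h

lemma iso_two (hm : 1 ≤ m) {f : Sph m → Sph m} (hf : Isometry f) :
    HomotopicThrough (fun h => IsIsometricFolding h ∧ Isometry h) f id ∨
    HomotopicThrough (fun h => IsIsometricFolding h ∧ Isometry h) f (refl0 m) := by
  obtain ⟨T, -, hT⟩ := iso_lin hm hf
  have hQP : ∀ (K : E m → E m) (hK : Expn K), FinCover K univ → QT K →
      IsIsometricFolding (rs K hK.2) ∧ Isometry (rs K hK.2) := fun K hK hc hQ =>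
    ⟨folding_rs hm hK hc, (rs_isometry hK).mpr fun ⟨x, y, h⟩ => h (hQ x y)⟩
  rcases hom_two (exists_pair hm) (norm_sph (stdPt m 0)) (T.toLinearIsometryEquiv rfl) with h | h
  · left
    exact of_hom hQP h (fun x => (hT x).symm) (fun x => rfl)
  · right
    exact of_hom hQP h (fun x => (hT x).symm) (fun x => rfl)

/-! ### The classification -/

lemma nontriv_hom (hm : 1 ≤ m) (hn : 1 ≤ n) {f g : Sph m → Sph n} (hf : IsIsometricFolding f)
    (hf' : ¬ Isometry f) (hg : IsIsometricFolding g) (hg' : ¬ Isometry g) :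
    HomotopicThrough (fun h => IsIsometricFolding h ∧ ¬ Isometry h) f g := by
  have hV := exists_pair hm
  have hW := exists_pair hn
  refine of_hom (Q := QN) ?_ (hom_nontriv hV hW (folding_expn hm hf) (folding_cover hm hf)
    (hext_qn hf') (folding_expn hm hg) (folding_cover hm hg) (hext_qn hg'))
    (hext_sph f) (hext_sph g)
  intro K hK hc hQ
  exact ⟨folding_rs hn hK hc, fun h => (rs_isometry hK).mp h hQ⟩

lemma codim_hom (hm : 1 ≤ m) (hmn : m < n) {f g : Sph m → Sph n} (hf : IsIsometricFolding f)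
    (hg : IsIsometricFolding g) : HomotopicThrough IsIsometricFolding f g := by
  have hn : 1 ≤ n := by omega
  refine of_hom (Q := QA) ?_ (hom_codim (exists_pair hm) (exists_pair hn)
    (exists_perp_range hmn) (folding_expn hm hf) (folding_cover hm hf)
    (folding_expn hm hg) (folding_cover hm hg)) (hext_sph f) (hext_sph g)
  intro K hK hc _
  exact folding_rs hn hK hc

lemma codim_triv (hm : 1 ≤ m) (hmn : m < n) {f g : Sph m → Sph n} (hf : Isometry f)
    (hg : Isometry g) :
    HomotopicThrough (fun h => IsIsometricFolding h ∧ Isometry h) f g := by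
  have hn : 1 ≤ n := by omega
  obtain ⟨A, -, hA⟩ := iso_lin hm hf
  obtain ⟨B, -, hB⟩ := iso_lin hm hg
  refine of_hom (Q := QT) ?_ (hom_triv (exists_pair hn) (exists_perp_range hmn) A B)
    (fun x => (hA x).symm) (fun x => (hB x).symm)
  intro K hK hc hQ
  exact ⟨folding_rs hn hK hc, (rs_isometry hK).mpr fun ⟨x, y, h⟩ => h (hQ x y)⟩

lemma no_folding (hm : 1 ≤ m) (h : n < m) (f : Sph m → Sph n) : ¬ IsIsometricFolding f := by
  intro hf
  obtain ⟨T, -⟩ := exists_piece (folding_expn hm hf) (folding_cover hm hf) (exists_pair hm)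
  exact no_incl h T

lemma exists_nontriv (hm : 1 ≤ m) (hmn : m ≤ n) :
    ∃ f : Sph m → Sph n, IsIsometricFolding f ∧ ¬ Isometry f := by
  obtain ⟨A⟩ := exists_incl hmn
  have hv := norm_sph (stdPt m 0)
  have hE : Expn (fun x => A (sfold (stdPt m 0 : E m) x)) := (lin_expn A).comp (fold_expn hv)
  have hC : FinCover (fun x => A (sfold (stdPt m 0 : E m) x)) univ :=
    (lin_cover A).comp (fold_cover hv)
  exact ⟨rs _ hE.2, folding_rs (by omega) hE hC,
    fun h => (rs_isometry hE).mp h (qn_fold A hv)⟩

lemma HomotopicThrough.trans' {P : (Sph m → Sph n) → Prop} {f g h : Sph m → Sph n}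
    (H : HomotopicThrough P f g) (H' : HomotopicThrough P g h) : HomotopicThrough P f h := by
  have key : ∀ {g h : Sph m → Sph n} (hg : Continuous g) (hh : Continuous h),
      HomotopicThrough P g h ↔ ContinuousMap.HomotopicWith (⟨g, hg⟩ : C(Sph m, Sph n))
      ⟨h, hh⟩ (fun f => P f) := by
    intro g h hg hh
    constructor
    · rintro ⟨H, hH, h0, h1, hf⟩
      exact ⟨{ toFun := fun p => H (p.2, p.1)
               continuous_toFun := by fun_prop
               map_zero_left := fun x => h0 x
               map_one_left := fun x => h1 x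
               prop' := fun t => hf t }⟩
    · rintro ⟨H⟩
      refine ⟨fun p => H (p.2, p.1), by fun_prop, fun x => by simp, fun x => by simp,
        fun t => ?_⟩
      exact H.prop' t
  have hf : Continuous f := by
    obtain ⟨K, hK, h0, -⟩ := H
    exact (hK.comp (continuous_id.prodMk continuous_const)).congr h0
  have hg : Continuous g := by
    obtain ⟨K, hK, -, h1, -⟩ := H
    exact (hK.comp (continuous_id.prodMk continuous_const)).congr h1
  have hh : Continuous h := by
    obtain ⟨K, hK, -, h1, -⟩ := H'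
    exact (hK.comp (continuous_id.prodMk continuous_const)).congr h1
  rw [key hf hh]
  exact ((key hf hg).mp H).trans ((key hg hh).mp H')

lemma same_orient (hm : 1 ≤ m) {f g : Sph m → Sph m} (hf : Isometry f) (hg : Isometry g)
    (h : orient f = orient g) :
    HomotopicThrough (fun h => IsIsometricFolding h ∧ Isometry h) f g := by
  have hto : ∀ {f g : Sph m → Sph m}, HomotopicThrough (fun h => IsIsometricFolding h ∧
      Isometry h) f g → Isometry f → orient f = orient g := fun H hf =>
    (homotopy_iso hm (H.mono fun _ h => h.1) hf).2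
  rcases iso_two hm hf with h1 | h1 <;> rcases iso_two hm hg with h2 | h2
  · exact h1.trans' h2.symm
  · exfalso
    have k1 := hto h1 hf
    have k2 := hto h2 hg
    rw [orient_id] at k1
    rw [orient_refl0] at k2
    rw [k1, k2] at h
    norm_num at h
  · exfalso
    have k1 := hto h1 hf
    have k2 := hto h2 hg
    rw [orient_refl0] at k1
    rw [orient_id] at k2
    rw [k1, k2] at h
    norm_num at h
  · exact h1.trans' h2.symm

lemma hom_iff_class (hm : 1 ≤ m) {f g : Sph m → Sph m} (hf : IsIsometricFolding f)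
    (hg : IsIsometricFolding g) : HomotopicThrough IsIsometricFolding f g ↔
      (¬ Isometry f ∧ ¬ Isometry g) ∨ (Isometry f ∧ Isometry g ∧ orient f = orient g) := by
  constructor
  · intro h
    by_cases h1 : Isometry f
    · right
      obtain ⟨h2, h3⟩ := homotopy_iso hm h h1
      exact ⟨h1, h2, h3⟩
    · left
      exact ⟨h1, fun h2 => h1 (homotopy_iso hm h.symm h2).1⟩
  · rintro (⟨h1, h2⟩ | ⟨h1, h2, h3⟩)
    · exact (nontriv_hom hm hm hf h1 hg h2).mono fun _ h => h.1
    · exact (same_orient hm h1 h2 h3).mono fun _ h => h.1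

/-! ### Path components -/

/-- The space of isometric foldings of `S^m` into `S^n` with the compact-open topology. -/
abbrev FoldSpace (m n : ℕ) : Type := {f : C(Sph m, Sph n) // IsIsometricFolding (f : _ → _)}

lemma joined_iff (F G : FoldSpace m n) :
    Joined F G ↔ HomotopicThrough IsIsometricFolding (F.1 : Sph m → Sph n) G.1 := by
  constructor
  · rintro ⟨γ⟩
    refine ⟨fun q => (γ q.2).1 q.1, ?_, fun x => by simp, fun x => by simp, fun t => (γ t).2⟩
    exact (continuous_subtype_val.comp (γ.continuous.comp continuous_snd)).eval continuous_fst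
  · rintro ⟨H, hH, h0, h1, hP⟩
    let K : C(unitInterval × Sph m, Sph n) := ⟨fun q => H (q.2, q.1), by fun_prop⟩
    refine ⟨{ toFun := fun t => ⟨K.curry t, hP t⟩
              continuous_toFun := ?_
              source' := ?_
              target' := ?_ }⟩
    · exact K.curry.continuous.subtype_mk _
    · apply Subtype.ext
      ext1 x
      exact h0 x
    · apply Subtype.ext
      ext1 x
      exact h1 x

open Classical in
/-- The type of a folding of `S^m` into itself: non-trivial, orientation preserving isometry,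
orientation reversing isometry. -/
noncomputable def cls (F : FoldSpace m m) : Fin 3 :=
  if Isometry F.1 then (if orient (F.1 : Sph m → Sph m) = 1 then 1 else 2) else 0

lemma joined_iff_cls (hm : 1 ≤ m) (F G : FoldSpace m m) : Joined F G ↔ cls F = cls G := by
  rw [joined_iff, hom_iff_class hm F.2 G.2]
  unfold cls
  by_cases h1 : Isometry F.1 <;> by_cases h2 : Isometry G.1
  · rcases orient_sq h1 with k1 | k1 <;> rcases orient_sq h2 with k2 | k2
    · simp [h1, h2, k1, k2]
    · simp [h1, h2, k1, k2]; try norm_num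
    · simp [h1, h2, k1, k2]; try norm_num
    · simp [h1, h2, k1, k2]
  · by_cases k1 : orient (F.1 : Sph m → Sph m) = 1 <;> simp [h1, h2, k1]
  · by_cases k2 : orient (G.1 : Sph m → Sph m) = 1 <;> simp [h1, h2, k2]
  · simp [h1, h2]

lemma cls_surj (hm : 1 ≤ m) : Function.Surjective (cls (m := m)) := by
  intro i
  fin_cases i
  · obtain ⟨f, hf, hn⟩ := exists_nontriv hm le_rfl
    exact ⟨⟨⟨f, hf.1⟩, hf⟩, by simp [cls, hn]⟩
  · refine ⟨⟨⟨id, continuous_id⟩, isometry_folding hm hm isometry_id⟩, ?_⟩
    have h1 : Isometry (⟨id, continuous_id⟩ : C(Sph m, Sph m)) := isometry_id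
    have h2 : orient ((⟨id, continuous_id⟩ : C(Sph m, Sph m)) : Sph m → Sph m) = 1 :=
      orient_id
    unfold cls
    rw [if_pos h1, if_pos h2]
    rfl
  · refine ⟨⟨⟨refl0 m, refl0_isometry.continuous⟩, isometry_folding hm hm refl0_isometry⟩, ?_⟩
    have h1 : Isometry (⟨refl0 m, refl0_isometry.continuous⟩ : C(Sph m, Sph m)) :=
      refl0_isometry
    have h2 : ¬ orient ((⟨refl0 m, refl0_isometry.continuous⟩ : C(Sph m, Sph m)) :
        Sph m → Sph m) = 1 := by
      change ¬ orient (refl0 m) = 1
      rw [orient_refl0]; norm_num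
    unfold cls
    rw [if_pos h1, if_neg h2]
    rfl

lemma card_components (hm : 1 ≤ m) : Nat.card (ZerothHomotopy (FoldSpace m n)) =
    if n < m then 0 else if n = m then 3 else 1 := by
  split_ifs with h1 h2
  · have : IsEmpty (ZerothHomotopy (FoldSpace m n)) := by
      refine ⟨fun q => ?_⟩
      induction q using Quotient.inductionOn with
      | _ F => exact no_folding hm h1 F.1 F.2
    exact Nat.card_of_isEmpty
  · subst h2
    have e : ZerothHomotopy (FoldSpace n n) ≃ Fin 3 := by
      refine Equiv.ofBijective (Quotient.lift cls fun F G h =>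
        (joined_iff_cls hm F G).mp h) ⟨?_, ?_⟩
      · intro p q
        induction p using Quotient.inductionOn with
        | _ F =>
          induction q using Quotient.inductionOn with
          | _ G =>
            intro h
            exact Quotient.sound ((joined_iff_cls hm F G).mpr h)
      · intro i
        obtain ⟨F, hF⟩ := cls_surj hm i
        exact ⟨Quotient.mk _ F, hF⟩
    rw [Nat.card_congr e, Nat.card_eq_fintype_card, Fintype.card_fin]
  · have h3 : m < n := by omega
    rw [Nat.card_eq_one_iff_unique]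
    constructor
    · refine ⟨fun p q => ?_⟩
      induction p using Quotient.inductionOn with
      | _ F =>
        induction q using Quotient.inductionOn with
        | _ G => exact Quotient.sound ((joined_iff F G).mpr (codim_hom hm h3 F.2 G.2))
    · obtain ⟨f, hf, -⟩ := exists_nontriv hm h3.le
      exact ⟨Quotient.mk _ ⟨⟨f, hf.1⟩, hf⟩⟩

/-- **Isometric foldings between round spheres up to homotopy.** Let `m ≥ 1` and let `n` be
arbitrary. Any two non-trivial isometric foldings `f`, `g` of `S^m` into `S^n` are homotopic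
through non-trivial isometric foldings (for `n = m` this answers Robertson's question with the
first alternative: `g` is homotopic to `f` itself, no isometries being needed). The space of all
isometric foldings of `S^m` into `S^n` has exactly three path components for `n = m` (the
non-trivial foldings and the two classes of isometries), exactly one for `n > m`, and it is empty
for `n < m`. -/
theorem result : ∀ m n : ℕ, 1 ≤ m →
    (∀ f g : Sph m → Sph n, IsIsometricFolding f → ¬ Isometry f →
      IsIsometricFolding g → ¬ Isometry g →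
      HomotopicThrough (fun h => IsIsometricFolding h ∧ ¬ Isometry h) f g) ∧
    Nat.card (ZerothHomotopy (FoldSpace m n)) =
      (if n < m then 0 else if n = m then 3 else 1) ∧
    (n < m → IsEmpty (FoldSpace m n)) := by
  intro m n hm
  refine ⟨fun f g hf hf' hg hg' => ?_, card_components hm,
    fun h => ⟨fun F => no_folding hm h F.1 F.2⟩⟩
  rcases lt_or_ge n m with h | h
  · exact absurd hf (no_folding hm h f)
  · exact nontriv_hom hm (by omega) hf hf' hg hg'

end Pool.Agent.Results.MP_9d9d56_gt.AllCodimensions
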